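import Pool.Agent.Q18.KZ.S1
import Pool.Agent.Q257.KS.LSD

/-!
# Project KZ of helper18: the large sieve at integer frequencies
-/

set_option autoImplicit false

namespace Pool.Agent.Q14.KZ

open Finset
open Pool.Agent.Q18.KZ

theorem t_LSW : S_LSW := by
  classical
  refine ⟨80, by norm_num, ?_⟩
  intro K σ v U θ b hK hσ hσ1 hU hsep
  have hinj : Set.InjOn θ (U : Set ℕ) := by
    intro u hu u' hu' h
    by_contra hne
    have h1 := hsep u hu u' hu' hne
    rw [h, sub_self, abs_zero] at h1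
    linarith
  obtain ⟨g, hg⟩ : ∃ g : ℝ → ℕ, ∀ u ∈ U, g (θ u) = u :=
    ⟨Function.invFunOn θ (U : Set ℕ), fun u hu => hinj.leftInvOn_invFunOn hu⟩
  have key := Pool.Agent.Q257.KS.dual K σ v (U.image θ) hK hσ hσ1 (by
    intro x hx
    obtain ⟨u, hu, rfl⟩ := Finset.mem_image.1 hx
    exact hU u hu) (by
    intro x hx y hy hxy
    obtain ⟨u, hu, rfl⟩ := Finset.mem_image.1 hx
    obtain ⟨u', hu', rfl⟩ := Finset.mem_image.1 hy
    exact hsep u hu u' hu' fun h => hxy (by rw [h])) (fun x => b (g x))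
  have e1 : ∑ x ∈ U.image θ, ‖b (g x)‖ ^ 2 = ∑ u ∈ U, ‖b u‖ ^ 2 := by
    rw [Finset.sum_image hinj]
    exact Finset.sum_congr rfl fun u hu => by rw [hg u hu]
  have e2 : ∀ k : ℤ, ∑ x ∈ U.image θ, b (g x) * Pool.Agent.Q257.KS.ek k x =
      ∑ u ∈ U, b u * Complex.exp (((k : ℝ) * θ u : ℝ) * Complex.I) := by
    intro k
    rw [Finset.sum_image hinj]
    refine Finset.sum_congr rfl fun u hu => ?_
    rw [hg u hu]
    rfl
  simp only [e1, e2] at key
  exact key

end Pool.Agent.Q14.KZ
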