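import Pool.Agent.Q18.KZ.S1

/-!
# Project KZ of helper18: lower tail by the second moment
-/

set_option autoImplicit false

namespace Pool.Agent.Q14.KZ

open Finset Filter Topology MeasureTheory
open scoped Classical
open Pool.Agent.Q18.KZ

/-- the indicator of `S ⊆ V` -/
noncomputable def ind (S : Finset ℕ) (ω : ℕ → Bool) : ℝ := if ∀ p ∈ S, ω p = true then 1 else 0

theorem ind_mul (S T : Finset ℕ) (ω : ℕ → Bool) : ind S ω * ind T ω = ind (S ∪ T) ω := by
  unfold ind
  by_cases h1 : ∀ p ∈ S, ω p = true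
  · by_cases h2 : ∀ p ∈ T, ω p = true
    · have h3 : ∀ p ∈ S ∪ T, ω p = true := by
        intro p hp
        rcases Finset.mem_union.1 hp with h | h
        · exact h1 p h
        · exact h2 p h
      rw [if_pos h1, if_pos h2, if_pos h3, one_mul]
    · have h3 : ¬ ∀ p ∈ S ∪ T, ω p = true := fun h =>
        h2 fun p hp => h p (Finset.mem_union_right _ hp)
      rw [if_neg h2, if_neg h3, mul_zero]
  · have h3 : ¬ ∀ p ∈ S ∪ T, ω p = true := fun h =>
      h1 fun p hp => h p (Finset.mem_union_left _ hp)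
    rw [if_neg h1, if_neg h3, zero_mul]

theorem ind_meas (S : Finset ℕ) : Measurable (ind S) := by
  unfold ind
  refine Measurable.ite ?_ measurable_const measurable_const
  have e : {ω : ℕ → Bool | ∀ p ∈ S, ω p = true} = ⋂ p ∈ S, {ω | ω p = true} := by
    ext ω
    simp
  rw [e]
  refine Finset.measurableSet_biInter S fun p _ => ?_
  exact measurableSet_eq_fun (measurable_pi_apply p) measurable_const

theorem ind_int {P : Measure (ℕ → Bool)} [IsProbabilityMeasure P] (S : Finset ℕ) :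
    Integrable (ind S) P := by
  refine Integrable.of_bound (ind_meas S).aestronglyMeasurable 1 (Eventually.of_forall fun ω => ?_)
  unfold ind
  split_ifs <;> simp

theorem ind_integral {ρ : ℕ → ℝ} {P : Measure (ℕ → Bool)} (hP : IsRand ρ P) (S : Finset ℕ) :
    ∫ ω, ind S ω ∂P = ∏ p ∈ S, ρ p := by
  have h := hP.2 S (fun _ b => if b = true then 1 else 0)
  have e1 : ∀ ω : ℕ → Bool, ∏ p ∈ S, (if ω p = true then (1 : ℝ) else 0) = ind S ω := by
    intro ω
    unfold ind
    by_cases h1 : ∀ p ∈ S, ω p = true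
    · rw [if_pos h1]
      exact Finset.prod_eq_one fun p hp => if_pos (h1 p hp)
    · rw [if_neg h1]
      push Not at h1
      obtain ⟨p, hp, hp2⟩ := h1
      exact Finset.prod_eq_zero hp (if_neg hp2)
  simp only [e1] at h
  rw [h]
  refine Finset.prod_congr rfl fun p _ => ?_
  simp

theorem ZZ_eq {ι : Type} (A : Finset ι) (c : ι → ℝ) (S : ι → Finset ℕ) (ω : ℕ → Bool) :
    ZZ A c S ω = ∑ a ∈ A, c a * ind (S a) ω := by
  unfold ZZ ind
  refine Finset.sum_congr rfl fun a _ => ?_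
  rw [mul_ite, mul_one, mul_zero]

theorem t_SM : S_SM := by
  intro ρ P _ hP ι A c S _ hm
  have := hP.1
  obtain ⟨m, hmdef⟩ : ∃ m, m = ∑ a ∈ A, c a * ∏ p ∈ S a, ρ p := ⟨_, rfl⟩
  rw [← hmdef] at hm ⊢
  have hexp : ∀ ω, (ZZ A c S ω - m) ^ 2 =
      ∑ a ∈ A, ∑ b ∈ A, c a * c b * ind (S a ∪ S b) ω - 2 * m * ∑ a ∈ A, c a * ind (S a) ω +
        m ^ 2 := by
    intro ω
    have e1 : (∑ a ∈ A, c a * ind (S a) ω) * (∑ b ∈ A, c b * ind (S b) ω) =
        ∑ a ∈ A, ∑ b ∈ A, c a * c b * ind (S a ∪ S b) ω := by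
      rw [Finset.sum_mul_sum]
      refine Finset.sum_congr rfl fun a _ => Finset.sum_congr rfl fun b _ => ?_
      rw [← ind_mul]
      ring
    rw [ZZ_eq, ← e1]
    ring
  have hi1 : Integrable (fun ω => ∑ a ∈ A, ∑ b ∈ A, c a * c b * ind (S a ∪ S b) ω) P :=
    integrable_finsetSum _ fun a _ => integrable_finsetSum _ fun b _ =>
      (ind_int _).const_mul _
  have hi2 : Integrable (fun ω => 2 * m * ∑ a ∈ A, c a * ind (S a) ω) P :=
    (integrable_finsetSum _ fun a _ => (ind_int _).const_mul _).const_mul _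
  have hi12 : Integrable (fun ω => ∑ a ∈ A, ∑ b ∈ A, c a * c b * ind (S a ∪ S b) ω -
      2 * m * ∑ a ∈ A, c a * ind (S a) ω) P := hi1.sub hi2
  have hint : Integrable (fun ω => (ZZ A c S ω - m) ^ 2) P := by
    simp only [hexp]
    exact (hi1.sub hi2).add (integrable_const _)
  have hval : ∫ ω, (ZZ A c S ω - m) ^ 2 ∂P =
      ∑ a ∈ A, ∑ b ∈ A, c a * c b * (∏ p ∈ S a ∪ S b, ρ p - (∏ p ∈ S a, ρ p) * ∏ p ∈ S b, ρ p) := by
    simp only [hexp]
    rw [integral_add hi12 (integrable_const _), integral_sub hi1 hi2,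
      integral_finsetSum _ fun a _ => integrable_finsetSum _ fun b _ => (ind_int _).const_mul _,
      integral_const_mul, integral_finsetSum _ fun a _ => (ind_int _).const_mul _, integral_const]
    have e1 : ∑ a ∈ A, ∫ ω, c a * ind (S a) ω ∂P = m := by
      rw [hmdef]
      refine Finset.sum_congr rfl fun a _ => ?_
      rw [integral_const_mul, ind_integral hP]
    have e2 : ∀ a ∈ A, ∫ ω, ∑ b ∈ A, c a * c b * ind (S a ∪ S b) ω ∂P =
        ∑ b ∈ A, c a * c b * ∏ p ∈ S a ∪ S b, ρ p := by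
      intro a _
      rw [integral_finsetSum _ fun b _ => (ind_int _).const_mul _]
      refine Finset.sum_congr rfl fun b _ => ?_
      rw [integral_const_mul, ind_integral hP]
    rw [e1, Finset.sum_congr rfl e2]
    have e3 : ∑ a ∈ A, ∑ b ∈ A, c a * c b * ((∏ p ∈ S a, ρ p) * ∏ p ∈ S b, ρ p) = m ^ 2 := by
      rw [sq, hmdef, Finset.sum_mul_sum]
      refine Finset.sum_congr rfl fun a _ => Finset.sum_congr rfl fun b _ => ?_
      ring
    have e4 : ∑ a ∈ A, ∑ b ∈ A, c a * c b *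
        (∏ p ∈ S a ∪ S b, ρ p - (∏ p ∈ S a, ρ p) * ∏ p ∈ S b, ρ p) =
        ∑ a ∈ A, ∑ b ∈ A, c a * c b * ∏ p ∈ S a ∪ S b, ρ p - m ^ 2 := by
      rw [← e3, ← Finset.sum_sub_distrib]
      refine Finset.sum_congr rfl fun a _ => ?_
      rw [← Finset.sum_sub_distrib]
      refine Finset.sum_congr rfl fun b _ => ?_
      ring
    rw [e4]
    simp only [probReal_univ, smul_eq_mul]
    ring
  have hmk := mul_meas_ge_le_integral_of_nonneg (μ := P) (f := fun ω => (ZZ A c S ω - m) ^ 2)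
    (Eventually.of_forall fun ω => sq_nonneg _) hint ((m / 2) ^ 2)
  rw [hval] at hmk
  have hsub : {ω | ZZ A c S ω < m / 2} ⊆ {ω | (m / 2) ^ 2 ≤ (ZZ A c S ω - m) ^ 2} := by
    intro ω hω
    have h1 : ZZ A c S ω < m / 2 := hω
    show (m / 2) ^ 2 ≤ (ZZ A c S ω - m) ^ 2
    nlinarith
  have h2 : P.real {ω | ZZ A c S ω < m / 2} ≤ P.real {ω | (m / 2) ^ 2 ≤ (ZZ A c S ω - m) ^ 2} :=
    measureReal_mono hsub
  have h3 : P {ω | ZZ A c S ω < m / 2} = ENNReal.ofReal (P.real {ω | ZZ A c S ω < m / 2}) := by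
    rw [ofReal_measureReal]
  rw [h3]
  refine ENNReal.ofReal_le_ofReal ?_
  rw [le_div_iff₀ (by positivity)]
  have h4 := mul_le_mul_of_nonneg_left h2 (by positivity : 0 ≤ (m / 2) ^ 2)
  nlinarith

end Pool.Agent.Q14.KZ
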